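import Mathlib

/-!
Croft's second question is answered in the negative: there is a Borel plane set `E` of positive finite
area for which no continuous choice of lines `L_t`, `0 < t < delta`, has `H^1 (L_t ∩ E) = t` for all `t`.

The set is `E = A ∪ N` (and its mirror image in the diagonal). `A` is a union of thin parallelograms of
length one placed far away in a dense set of directions, of finite total area: a continuous path of lines
that changes its direction must at some moment run lengthwise through one of them. `N` is a null set, a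
countable union of affine copies of a Besicovitch type set, such that in every direction a dense set of
lines meets `N` in a segment of length at least one: a path of parallel lines must meet one of these.
-/

set_option autoImplicit false
open MeasureTheory Set Filter Topology
open scoped ENNReal Real

namespace Pool.Agent.Results.MP_ec7c5f_an.ContinuousLines

/-- The Euclidean plane. -/
abbrev Plane := EuclideanSpace ℝ (Fin 2)

/-- The pairs `(θ, p)` of a unit vector and a real number. -/
abbrev NormalForm := Metric.sphere (0 : Plane) 1 × ℝ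

/-- The identification of `(θ, p)` with `(-θ, -p)`. -/
def lineSetoid : Setoid NormalForm where
  r x y := y = x ∨ y = -x
  iseqv := by
    refine ⟨fun x => Or.inl rfl, ?_, ?_⟩
    · rintro x y (h | h)
      · exact Or.inl h.symm
      · exact Or.inr (by rw [h, neg_neg])
    · rintro x y z (h | h) (h' | h')
      · exact Or.inl (h'.trans h)
      · exact Or.inr (by rw [h', h])
      · exact Or.inr (by rw [h', h])
      · exact Or.inl (by rw [h', h, neg_neg])

/-- The space of lines of the plane; Mathlib gives it the quotient topology. -/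
abbrev LineSpace : Type := Quotient lineSetoid

/-- The line as a set of points: the class of `(θ, p)` is the set of `x` with `x · θ = p`. -/
def pointSet : LineSpace → Set Plane :=
  Quotient.lift (fun d : NormalForm => {x : Plane | inner ℝ x (d.1 : Plane) = d.2}) (by
    rintro a b (h | h)
    · rw [h]
    · rw [h]
      ext x
      simp [inner_neg_right])

/-- a dense sequence in `[0,1]` -/
noncomputable def rr (n : ℕ) : ℝ := ((TopologicalSpace.denseSeq (Icc (0:ℝ) 1) n : Icc (0:ℝ) 1) : ℝ)

theorem rr_mem (n : ℕ) : rr n ∈ Icc (0:ℝ) 1 := (TopologicalSpace.denseSeq (Icc (0:ℝ) 1) n).2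

theorem rr_dense (x : ℝ) (hx : x ∈ Icc (0:ℝ) 1) (ε : ℝ) (hε : 0 < ε) : ∃ n, |x - rr n| < ε := by
  have h := TopologicalSpace.denseRange_denseSeq (Icc (0:ℝ) 1)
  obtain ⟨n, hn⟩ := h.exists_dist_lt ⟨x, hx⟩ hε
  exact ⟨n, by rwa [Subtype.dist_eq, Real.dist_eq] at hn⟩

/-- pivots: every value `rr i` is taken on arbitrarily long runs -/
noncomputable def piv (j : ℕ) : ℝ := rr (Nat.unpair (Nat.sqrt j)).1

theorem piv_run (i m : ℕ) : ∀ l ≤ m, piv (Nat.pair i m * Nat.pair i m + l) = rr i := by
  intro l hl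
  unfold piv
  have h1 : Nat.sqrt (Nat.pair i m * Nat.pair i m + l) = Nat.pair i m := by
    apply Nat.sqrt_add_eq
    have := Nat.right_le_pair i m
    omega
  rw [h1, Nat.unpair_pair]

/-- the fibre value -/
noncomputable def fib (x : ℝ) (ω : ℕ → Fin 2) : ℝ := ∑' j, Real.ofDigitsTerm ω j * (x - piv j)

theorem term_le (ω : ℕ → Fin 2) (j : ℕ) : Real.ofDigitsTerm ω j ≤ (1 / 2) ^ (j + 1) := by
  refine Real.ofDigitsTerm_le.trans (le_of_eq ?_)
  rw [one_div, inv_pow]
  norm_num

theorem abs_sub_piv_le (x : ℝ) (hx : x ∈ Icc (0:ℝ) 1) (j : ℕ) : |x - piv j| ≤ 1 := by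
  have := rr_mem (Nat.unpair (Nat.sqrt j)).1
  unfold piv
  rw [abs_le]
  constructor <;> linarith [hx.1, hx.2, this.1, this.2]

theorem abs_term_le (x : ℝ) (hx : x ∈ Icc (0:ℝ) 1) (ω : ℕ → Fin 2) (j : ℕ) :
    |Real.ofDigitsTerm ω j * (x - piv j)| ≤ (1 / 2) ^ (j + 1) := by
  rw [abs_mul, abs_of_nonneg Real.ofDigitsTerm_nonneg]
  calc Real.ofDigitsTerm ω j * |x - piv j| ≤ (1 / 2) ^ (j + 1) * 1 :=
        mul_le_mul (term_le ω j) (abs_sub_piv_le x hx j) (abs_nonneg _) (by positivity)
    _ = (1 / 2) ^ (j + 1) := mul_one _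

theorem summable_half (n : ℕ) : Summable (fun j : ℕ => (1 / 2 : ℝ) ^ (n + j + 1)) := by
  have : (fun j : ℕ => (1 / 2 : ℝ) ^ (n + j + 1)) = fun j => (1 / 2 : ℝ) ^ (n + 1) * (1 / 2) ^ j := by
    ext j; rw [← pow_add]; congr 1; ring
  rw [this]
  exact summable_geometric_two.mul_left _

theorem tsum_half (n : ℕ) : ∑' j : ℕ, (1 / 2 : ℝ) ^ (n + j + 1) = (1 / 2) ^ n := by
  have : (fun j : ℕ => (1 / 2 : ℝ) ^ (n + j + 1)) = fun j => (1 / 2 : ℝ) ^ (n + 1) * (1 / 2) ^ j := by
    ext j; rw [← pow_add]; congr 1; ring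
  rw [this, tsum_mul_left, tsum_geometric_two, pow_succ]
  ring

theorem summable_term (x : ℝ) (hx : x ∈ Icc (0:ℝ) 1) (ω : ℕ → Fin 2) :
    Summable (fun j => Real.ofDigitsTerm ω j * (x - piv j)) := by
  apply Summable.of_norm_bounded (g := fun j : ℕ => (1 / 2 : ℝ) ^ (j + 1))
  · simpa using summable_half 0
  · intro j
    exact abs_term_le x hx ω j

theorem fib_approx (x : ℝ) (hx : x ∈ Icc (0:ℝ) 1) (ω : ℕ → Fin 2) (n m : ℕ) (ε : ℝ)
    (h : ∀ l ≤ m, |x - piv (n + l)| ≤ ε) :
    |fib x ω - ∑ j ∈ Finset.range n, Real.ofDigitsTerm ω j * (x - piv j)| ≤ (1 / 2) ^ n * (ε + (1 / 2) ^ m) := by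
  have hε : 0 ≤ ε := (abs_nonneg _).trans (h 0 (Nat.zero_le _))
  have hs := summable_term x hx ω
  have h1 : fib x ω = ∑ j ∈ Finset.range n, Real.ofDigitsTerm ω j * (x - piv j) +
      ∑ l ∈ Finset.range m, Real.ofDigitsTerm ω (n + l) * (x - piv (n + l)) +
      ∑' l, Real.ofDigitsTerm ω (l + (n + m)) * (x - piv (l + (n + m))) := by
    unfold fib
    rw [← hs.sum_add_tsum_nat_add (n + m), Finset.sum_range_add]
  rw [h1]
  have h2 : |∑ l ∈ Finset.range m, Real.ofDigitsTerm ω (n + l) * (x - piv (n + l))| ≤ (1 / 2) ^ n * ε := by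
    refine (Finset.abs_sum_le_sum_abs _ _).trans ?_
    calc ∑ l ∈ Finset.range m, |Real.ofDigitsTerm ω (n + l) * (x - piv (n + l))|
        ≤ ∑ l ∈ Finset.range m, (1 / 2 : ℝ) ^ (n + l + 1) * ε := by
          apply Finset.sum_le_sum
          intro l hl
          rw [abs_mul, abs_of_nonneg Real.ofDigitsTerm_nonneg]
          exact mul_le_mul (term_le ω _) (h l (Finset.mem_range.mp hl).le) (abs_nonneg _) (by positivity)
      _ = (∑ l ∈ Finset.range m, (1 / 2 : ℝ) ^ (n + l + 1)) * ε := by rw [Finset.sum_mul]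
      _ ≤ (1 / 2) ^ n * ε := by
          gcongr
          rw [← tsum_half n]
          exact (summable_half n).sum_le_tsum _ (fun _ _ => by positivity)
  have h3 : |∑' l, Real.ofDigitsTerm ω (l + (n + m)) * (x - piv (l + (n + m)))| ≤ (1 / 2) ^ n * (1 / 2) ^ m := by
    rw [← pow_add, ← tsum_half (n + m)]
    have hle : ∀ l : ℕ, ‖Real.ofDigitsTerm ω (l + (n + m)) * (x - piv (l + (n + m)))‖ ≤
        (1 / 2 : ℝ) ^ (n + m + l + 1) := by
      intro l
      have h := abs_term_le x hx ω (l + (n + m))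
      rw [show l + (n + m) + 1 = n + m + l + 1 by ring] at h
      exact h
    exact tsum_of_norm_bounded (summable_half (n + m)).hasSum hle
  have h4 : ∀ a b c : ℝ, a + b + c - a = b + c := by intros; ring
  rw [h4]
  refine (abs_add_le _ _).trans ?_
  rw [mul_add]
  exact add_le_add h2 h3

theorem volume_fib (x : ℝ) (hx : x ∈ Icc (0:ℝ) 1) : volume (range (fib x)) = 0 := by
  rw [← nonpos_iff_eq_zero]
  apply ENNReal.le_of_forall_pos_le_add
  intro ε hε _
  rw [zero_add]
  have hε4 : (0:ℝ) < ε / 4 := by positivity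
  obtain ⟨m, hm⟩ := exists_pow_lt_of_lt_one hε4 (show (1 / 2 : ℝ) < 1 by norm_num)
  obtain ⟨i, hi⟩ := rr_dense x hx _ hε4
  set n := Nat.pair i m * Nat.pair i m with hn
  have hrun : ∀ l ≤ m, |x - piv (n + l)| ≤ ε / 4 := by
    intro l hl
    rw [piv_run i m l hl]
    exact hi.le
  have hsub : range (fib x) ⊆ ⋃ σ : Fin n → Fin 2, Metric.closedBall
      (∑ j : Fin n, ((σ j : ℕ) : ℝ) * ((2:ℝ) ^ ((j:ℕ) + 1))⁻¹ * (x - piv j)) ((1 / 2) ^ n * (ε / 2)) := by
    rintro y ⟨ω, rfl⟩
    rw [mem_iUnion]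
    refine ⟨fun j => ω j, ?_⟩
    rw [Metric.mem_closedBall, Real.dist_eq]
    have h1 := fib_approx x hx ω n m (ε / 4) hrun
    rw [Finset.sum_range] at h1
    refine le_trans (le_of_eq ?_) (h1.trans ?_)
    · congr 2
    · gcongr
      linarith
  refine (measure_mono hsub).trans ((measure_iUnion_le _).trans ?_)
  simp_rw [Real.volume_closedBall]
  rw [tsum_fintype, Finset.sum_const, nsmul_eq_mul, Finset.card_univ, Fintype.card_fun, Fintype.card_fin,
    Fintype.card_fin, ← ENNReal.ofReal_natCast, ← ENNReal.ofReal_mul (by positivity)]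
  have : ((2 ^ n : ℕ) : ℝ) * (2 * ((1 / 2) ^ n * (ε / 2))) = ε := by
    push_cast
    rw [one_div, inv_pow]
    field_simp
  rw [this]
  simp

/-- The basic Besicovitch type set over the unit interval. -/
def bes : Set (ℝ × ℝ) := {p | p.1 ∈ Icc (0:ℝ) 1 ∧ ∃ ω : ℕ → Fin 2, fib p.1 ω = p.2}

theorem isClosed_bes : IsClosed bes := by
  have h1 : bes = (fun q : (Icc (0:ℝ) 1) × (ℕ → Fin 2) => (((q.1 : ℝ)), fib q.1 q.2)) '' univ := by
    ext p
    constructor
    · rintro ⟨hp, ω, hω⟩
      exact ⟨(⟨p.1, hp⟩, ω), trivial, by ext <;> simp [hω]⟩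
    · rintro ⟨⟨x, ω⟩, -, rfl⟩
      exact ⟨x.2, ω, rfl⟩
  rw [h1]
  apply IsCompact.isClosed
  apply isCompact_univ.image
  apply Continuous.prodMk
  · fun_prop
  · unfold fib
    apply continuous_tsum (u := fun j : ℕ => (1 / 2 : ℝ) ^ (j + 1))
    · intro j
      simp only [Real.ofDigitsTerm]
      fun_prop
    · simpa using summable_half 0
    · intro j q
      exact abs_term_le q.1 q.1.2 q.2 j

theorem bes_section (x : ℝ) : volume (Prod.mk x ⁻¹' bes) = 0 := by
  by_cases hx : x ∈ Icc (0:ℝ) 1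
  · have : Prod.mk x ⁻¹' bes ⊆ range (fib x) := by
      rintro y ⟨-, ω, hω⟩
      exact ⟨ω, hω⟩
    exact measure_mono_null this (volume_fib x hx)
  · have : Prod.mk x ⁻¹' bes = ∅ := by
      ext y
      simp only [mem_preimage, bes, Set.mem_ofPred_eq, mem_empty_iff_false, iff_false]
      rintro ⟨h, -⟩
      exact hx h
    rw [this, measure_empty]

/-- every slope `a` in `[0,1)` occurs -/
theorem bes_lines (a : ℝ) (ha : a ∈ Ico (0:ℝ) 1) : ∃ b : ℝ, ∀ x ∈ Icc (0:ℝ) 1, (x, a * x + b) ∈ bes := by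
  set ω := Real.digits a 2 with hω
  have h1 : HasSum (Real.ofDigitsTerm ω) a := Real.hasSum_ofDigitsTerm_digits a (by norm_num) ha
  have hs : Summable (fun j => Real.ofDigitsTerm ω j * piv j) := by
    apply Summable.of_norm_bounded (g := fun j : ℕ => (1 / 2 : ℝ) ^ (j + 1))
    · simpa using summable_half 0
    · intro j
      have h2 := rr_mem (Nat.unpair (Nat.sqrt j)).1
      rw [Real.norm_eq_abs, abs_mul, abs_of_nonneg Real.ofDigitsTerm_nonneg, abs_of_nonneg (show 0 ≤ piv j from h2.1)]
      calc Real.ofDigitsTerm ω j * piv j ≤ (1 / 2) ^ (j + 1) * 1 :=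
          mul_le_mul (term_le ω j) h2.2 h2.1 (by positivity)
        _ = _ := mul_one _
  refine ⟨-∑' j, Real.ofDigitsTerm ω j * piv j, ?_⟩
  intro x hx
  refine ⟨hx, ω, ?_⟩
  simp only
  unfold fib
  have h3 : HasSum (fun j => Real.ofDigitsTerm ω j * (x - piv j)) (a * x - ∑' j, Real.ofDigitsTerm ω j * piv j) := by
    have h4 := (h1.mul_right x).sub hs.hasSum
    have h5 : (fun j => Real.ofDigitsTerm ω j * (x - piv j)) =
        fun j => Real.ofDigitsTerm ω j * x - Real.ofDigitsTerm ω j * piv j := by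
      ext j; ring
    rw [h5]
    exact h4
  rw [h3.tsum_eq]
  ring

/-- a dense sequence of reals -/
noncomputable def dq (n : ℕ) : ℝ := TopologicalSpace.denseSeq ℝ n

theorem dq_between (a b : ℝ) (h : a < b) : ∃ n, a < dq n ∧ dq n < b := by
  obtain ⟨n, h1⟩ := (TopologicalSpace.denseRange_denseSeq ℝ).exists_mem_open isOpen_Ioo
    (show (Ioo a b).Nonempty from nonempty_Ioo.mpr h)
  exact ⟨n, h1.1, h1.2⟩

/-- the null part: sheared and shifted copies of `bes` -/
def nullPiece (n : ℤ) (k : ℕ) : Set (ℝ × ℝ) := {p | (p.1, p.2 - n * p.1 - dq k) ∈ bes}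

theorem isClosed_nullPiece (n : ℤ) (k : ℕ) : IsClosed (nullPiece n k) := by
  apply isClosed_bes.preimage
  fun_prop

theorem volume_nullPiece (n : ℤ) (k : ℕ) : volume (nullPiece n k) = 0 := by
  rw [Measure.volume_eq_prod, Measure.measure_prod_null (isClosed_nullPiece n k).measurableSet]
  filter_upwards with x
  have : Prod.mk x ⁻¹' nullPiece n k = (fun y => y + -(n * x + dq k)) ⁻¹' (Prod.mk x ⁻¹' bes) := by
    ext y
    simp only [nullPiece, mem_preimage, Set.mem_ofPred_eq]
    rw [show y - n * x - dq k = y + -(n * x + dq k) by ring]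
  rw [this, measure_preimage_add_right]
  exact bes_section x

/-- the far pieces blocking rotations -/
noncomputable def farPiece (i : ℕ) : Set (ℝ × ℝ) :=
  {p | p.1 ∈ Icc ((i + 1 : ℝ) * 4 ^ (i + 1)) ((i + 1 : ℝ) * 4 ^ (i + 1) + 1) ∧
    |p.2 - dq (Nat.unpair i).1 * p.1| ≤ (1 / 4) ^ (i + 1)}

theorem isClosed_farPiece (i : ℕ) : IsClosed (farPiece i) := by
  have h1 : IsClosed {p : ℝ × ℝ | p.1 ∈ Icc ((i + 1 : ℝ) * 4 ^ (i + 1)) ((i + 1 : ℝ) * 4 ^ (i + 1) + 1)} :=
    isClosed_Icc.preimage continuous_fst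
  have h2 : IsClosed {p : ℝ × ℝ | |p.2 - dq (Nat.unpair i).1 * p.1| ≤ (1 / 4) ^ (i + 1)} := by
    apply isClosed_le _ continuous_const
    fun_prop
  exact h1.inter h2

theorem volume_farPiece (i : ℕ) : volume (farPiece i) = ENNReal.ofReal (2 * (1 / 4) ^ (i + 1)) := by
  rw [Measure.volume_eq_prod, Measure.prod_apply (isClosed_farPiece i).measurableSet]
  have : ∀ x : ℝ, volume (Prod.mk x ⁻¹' farPiece i) =
      (Icc ((i + 1 : ℝ) * 4 ^ (i + 1)) ((i + 1 : ℝ) * 4 ^ (i + 1) + 1)).indicator
        (fun _ => ENNReal.ofReal (2 * (1 / 4) ^ (i + 1))) x := by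
    intro x
    by_cases hx : x ∈ Icc ((i + 1 : ℝ) * 4 ^ (i + 1)) ((i + 1 : ℝ) * 4 ^ (i + 1) + 1)
    · rw [indicator_of_mem hx]
      have : Prod.mk x ⁻¹' farPiece i = Metric.closedBall (dq (Nat.unpair i).1 * x) ((1 / 4) ^ (i + 1)) := by
        ext y
        simp only [farPiece, mem_preimage, Set.mem_ofPred_eq, Metric.mem_closedBall, Real.dist_eq]
        exact ⟨fun h => h.2, fun h => ⟨hx, h⟩⟩
      rw [this, Real.volume_closedBall]
    · rw [indicator_of_notMem hx]
      have : Prod.mk x ⁻¹' farPiece i = ∅ := by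
        ext y
        simp only [farPiece, mem_preimage, Set.mem_ofPred_eq, mem_empty_iff_false, iff_false]
        rintro ⟨h, -⟩
        exact hx h
      rw [this, measure_empty]
  simp_rw [this]
  rw [lintegral_indicator measurableSet_Icc, setLIntegral_const, Real.volume_Icc]
  simp

/-- the planar set in product coordinates -/
noncomputable def SS : Set (ℝ × ℝ) := (⋃ (n : ℤ) (k : ℕ), nullPiece n k) ∪ ⋃ i : ℕ, farPiece i

theorem measurableSet_SS : MeasurableSet SS := by
  apply MeasurableSet.union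
  · exact MeasurableSet.iUnion fun n => MeasurableSet.iUnion fun k => (isClosed_nullPiece n k).measurableSet
  · exact MeasurableSet.iUnion fun i => (isClosed_farPiece i).measurableSet

theorem volume_SS_lt_top : volume SS < ∞ := by
  have h1 : volume (⋃ (n : ℤ) (k : ℕ), nullPiece n k) = 0 := by
    rw [measure_iUnion_null_iff]
    intro n
    rw [measure_iUnion_null_iff]
    intro k
    exact volume_nullPiece n k
  have h2 : volume (⋃ i : ℕ, farPiece i) < ∞ := by
    refine (measure_iUnion_le _).trans_lt ?_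
    simp_rw [volume_farPiece]
    have hs : Summable (fun i : ℕ => 2 * (1 / 4 : ℝ) ^ (i + 1)) := by
      apply Summable.mul_left
      exact (summable_nat_add_iff 1).mpr (summable_geometric_of_lt_one (by norm_num) (by norm_num))
    rw [← ENNReal.ofReal_tsum_of_nonneg (fun i => by positivity) hs]
    exact ENNReal.ofReal_lt_top
  refine (measure_union_le _ _).trans_lt ?_
  rw [h1, zero_add]
  exact h2

theorem volume_SS_pos : 0 < volume SS := by
  have h : farPiece 0 ⊆ SS := fun p hp => Or.inr (mem_iUnion.mpr ⟨0, hp⟩)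
  refine lt_of_lt_of_le ?_ (measure_mono h)
  rw [volume_farPiece]
  simp

theorem core (m b : ℝ → ℝ) (α β : ℝ) (hm : ContinuousOn m (Ioo α β)) (hb : ContinuousOn b (Ioo α β))
    (hno : ∀ t ∈ Ioo α β, ¬ ∃ x₀ : ℝ, ∀ x ∈ Icc x₀ (x₀ + 1), (x, m t * x + b t) ∈ SS) :
    ∀ t ∈ Ioo α β, ∀ t' ∈ Ioo α β, m t = m t' ∧ b t = b t' := by
  have hA : ∀ t ∈ Ioo α β, ∀ t' ∈ Ioo α β, ¬ m t < m t' := by
    intro t ht t' ht' hlt
    have hsub : uIcc t t' ⊆ Ioo α β := ordConnected_Ioo.uIcc_subset ht ht'
    obtain ⟨c, hc1, hc2⟩ := dq_between _ _ hlt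
    obtain ⟨P, hP⟩ := isCompact_uIcc.exists_bound_of_continuousOn (hb.mono hsub)
    obtain ⟨N, hN⟩ := exists_nat_gt (max P (max (P / (m t' - dq c)) (P / (dq c - m t))))
    have hN1 : P < N := (le_max_left _ _).trans_lt hN
    have hN2 : P / (m t' - dq c) < N := ((le_max_left _ _).trans (le_max_right _ _)).trans_lt hN
    have hN3 : P / (dq c - m t) < N := ((le_max_right _ _).trans (le_max_right _ _)).trans_lt hN
    set i := Nat.pair c N with hi
    have hiN : N ≤ i := Nat.right_le_pair c N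
    have hiN' : (N : ℝ) ≤ i := by exact_mod_cast hiN
    have hqi : dq (Nat.unpair i).1 = dq c := by rw [hi, Nat.unpair_pair]
    set s : ℝ := (i + 1 : ℝ) * 4 ^ (i + 1) with hs
    have h4 : (1 : ℝ) ≤ 4 ^ (i + 1) := one_le_pow₀ (by norm_num)
    have hsN : (N : ℝ) ≤ s := by
      have : (0:ℝ) ≤ i := by positivity
      nlinarith
    have hs0 : 0 < s := by positivity
    have e1 : P < (m t' - dq c) * s := by
      rw [div_lt_iff₀ (by linarith)] at hN2
      calc P < N * (m t' - dq c) := hN2
        _ ≤ s * (m t' - dq c) := by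
          apply mul_le_mul_of_nonneg_right hsN; linarith
        _ = _ := mul_comm _ _
    have e2 : P < (dq c - m t) * s := by
      rw [div_lt_iff₀ (by linarith)] at hN3
      calc P < N * (dq c - m t) := hN3
        _ ≤ s * (dq c - m t) := by
          apply mul_le_mul_of_nonneg_right hsN; linarith
        _ = _ := mul_comm _ _
    have hbt := hP t left_mem_uIcc
    have hbt' := hP t' right_mem_uIcc
    rw [Real.norm_eq_abs, abs_le] at hbt hbt'
    have hcont : ContinuousOn (fun τ => m τ * s + b τ - dq c * s) (uIcc t t') := by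
      have h1 := (hm.mono hsub)
      have h2 := (hb.mono hsub)
      fun_prop
    have hivt := intermediate_value_uIcc hcont
    have h0 : (0:ℝ) ∈ uIcc (m t * s + b t - dq c * s) (m t' * s + b t' - dq c * s) := by
      rw [mem_uIcc]
      left
      constructor
      · nlinarith [hbt.2]
      · nlinarith [hbt'.1]
    obtain ⟨τ, hτ, hτ0⟩ := hivt h0
    simp only at hτ0
    apply hno τ (hsub hτ)
    refine ⟨s, ?_⟩
    intro x hx
    right
    rw [mem_iUnion]
    refine ⟨i, hx, ?_⟩
    simp only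
    rw [hqi]
    have h5 : m τ * x + b τ - dq c * x = (m τ - dq c) * (x - s) := by linarith
    rw [h5, abs_mul]
    have h6 : |m τ - dq c| * s ≤ i + 1 := by
      have h7 : (m τ - dq c) * s = - b τ := by linarith
      have h8 : |m τ - dq c| * s = |b τ| := by
        rw [← abs_neg (b τ), ← h7, abs_mul, abs_of_pos hs0]
      rw [h8]
      have := hP τ hτ
      rw [Real.norm_eq_abs] at this
      linarith
    have h9 : |m τ - dq c| ≤ (1 / 4) ^ (i + 1) := by
      have h10 : |m τ - dq c| * 4 ^ (i + 1) ≤ 1 := by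
        have hi1 : (0:ℝ) < i + 1 := by positivity
        have h11 : (|m τ - dq c| * 4 ^ (i + 1)) * (i + 1) ≤ 1 * (i + 1) := by
          rw [hs] at h6; linarith
        exact le_of_mul_le_mul_right h11 hi1
      rw [one_div, inv_pow, ← one_div, le_div_iff₀ (by positivity)]
      exact h10
    have h12 : |x - s| ≤ 1 := by
      rw [abs_le]
      constructor <;> linarith [hx.1, hx.2]
    calc |m τ - dq c| * |x - s| ≤ (1 / 4) ^ (i + 1) * 1 :=
          mul_le_mul h9 h12 (abs_nonneg _) (by positivity)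
      _ = _ := mul_one _
  have hmeq : ∀ t ∈ Ioo α β, ∀ t' ∈ Ioo α β, m t = m t' := fun t ht t' ht' =>
    le_antisymm (not_lt.mp (hA t' ht' t ht)) (not_lt.mp (hA t ht t' ht'))
  have hB : ∀ t ∈ Ioo α β, ∀ t' ∈ Ioo α β, ¬ b t < b t' := by
    intro t ht t' ht' hlt
    have hsub : uIcc t t' ⊆ Ioo α β := ordConnected_Ioo.uIcc_subset ht ht'
    obtain ⟨b₀, hb₀⟩ := bes_lines (Int.fract (m t)) ⟨Int.fract_nonneg _, Int.fract_lt_one _⟩
    obtain ⟨k, hk1, hk2⟩ := dq_between (b t - b₀) (b t' - b₀) (by linarith)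
    have hivt := intermediate_value_uIcc (hb.mono hsub)
    have h0 : b₀ + dq k ∈ uIcc (b t) (b t') := by
      rw [mem_uIcc]
      left
      constructor <;> linarith
    obtain ⟨τ, hτ, hτ0⟩ := hivt h0
    apply hno τ (hsub hτ)
    refine ⟨0, ?_⟩
    intro x hx
    rw [zero_add] at hx
    left
    rw [mem_iUnion₂]
    refine ⟨⌊m t⌋, k, ?_⟩
    have h1 := hb₀ x hx
    simp only [nullPiece, Set.mem_ofPred_eq]
    convert h1 using 2
    rw [hτ0, hmeq τ (hsub hτ) t ht, Int.fract]
    ring
  intro t ht t' ht'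
  exact ⟨hmeq t ht t' ht', le_antisymm (not_lt.mp (hB t' ht' t ht)) (not_lt.mp (hB t ht t' ht'))⟩

/-- coordinates -/
def toPair (x : Plane) : ℝ × ℝ := (x 0, x 1)

theorem measurePreserving_toPair : MeasurePreserving toPair (volume : Measure Plane) volume := by
  have h1 := EuclideanSpace.volume_preserving_symm_measurableEquiv_toLp (Fin 2)
  have h2 := volume_preserving_finTwoArrow ℝ
  exact h2.comp h1

/-- the planar set -/
def EE : Set Plane := toPair ⁻¹' (SS ∪ Prod.swap ⁻¹' SS)

theorem measurableSet_EE : MeasurableSet EE :=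
  measurePreserving_toPair.measurable (measurableSet_SS.union (measurable_swap measurableSet_SS))

theorem volume_EE : volume EE = volume (SS ∪ Prod.swap ⁻¹' SS) :=
  measurePreserving_toPair.measure_preimage (measurableSet_SS.union (measurable_swap measurableSet_SS)).nullMeasurableSet

theorem volume_EE_pos : 0 < volume EE := by
  rw [volume_EE]
  exact lt_of_lt_of_le volume_SS_pos (measure_mono subset_union_left)

theorem volume_EE_lt_top : volume EE < ∞ := by
  rw [volume_EE]
  refine (measure_union_le _ _).trans_lt ?_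
  have h : volume (Prod.swap ⁻¹' SS) = volume SS := by
    have : MeasurePreserving (Prod.swap : ℝ × ℝ → ℝ × ℝ) volume volume := Measure.measurePreserving_swap
    exact this.measure_preimage measurableSet_SS.nullMeasurableSet
  rw [h]
  exact ENNReal.add_lt_top.mpr ⟨volume_SS_lt_top, volume_SS_lt_top⟩

theorem inner_plane (x y : Plane) : inner ℝ x y = x 0 * y 0 + x 1 * y 1 := by
  simp [PiLp.inner_apply, Fin.sum_univ_two, mul_comm]

/-- a long segment in the first coordinate -/
theorem one_le_hausdorff_fst (T : Set Plane) (m b x₀ : ℝ)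
    (h : ∀ z : Plane, z 0 ∈ Icc x₀ (x₀ + 1) → z 1 = m * z 0 + b → z ∈ T) : 1 ≤ μH[1] T := by
  set p : Plane := !₂[x₀, m * x₀ + b] with hp
  set q : Plane := !₂[x₀ + 1, m * (x₀ + 1) + b] with hq
  have hsub : segment ℝ p q ⊆ T := by
    rintro z ⟨u, v, hu, hv, huv, rfl⟩
    apply h
    · simp only [hp, hq, PiLp.add_apply, PiLp.smul_apply, smul_eq_mul]
      simp
      have : u = 1 - v := by linarith
      rw [this]
      constructor <;> linarith
    · simp only [hp, hq, PiLp.add_apply, PiLp.smul_apply, smul_eq_mul]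
      simp
      have : u = 1 - v := by linarith
      rw [this]
      ring
  refine le_trans ?_ (measure_mono hsub)
  rw [hausdorffMeasure_segment, edist_dist, ENNReal.one_le_ofReal, dist_comm, EuclideanSpace.dist_eq]
  apply Real.le_sqrt_of_sq_le
  simp only [Fin.sum_univ_two, hp, hq, Real.dist_eq, sq_abs]
  simp
  positivity

theorem one_le_hausdorff_snd (T : Set Plane) (m b x₀ : ℝ)
    (h : ∀ z : Plane, z 1 ∈ Icc x₀ (x₀ + 1) → z 0 = m * z 1 + b → z ∈ T) : 1 ≤ μH[1] T := by
  set p : Plane := !₂[m * x₀ + b, x₀] with hp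
  set q : Plane := !₂[m * (x₀ + 1) + b, x₀ + 1] with hq
  have hsub : segment ℝ p q ⊆ T := by
    rintro z ⟨u, v, hu, hv, huv, rfl⟩
    apply h
    · simp only [hp, hq, PiLp.add_apply, PiLp.smul_apply, smul_eq_mul]
      simp
      have : u = 1 - v := by linarith
      rw [this]
      constructor <;> linarith
    · simp only [hp, hq, PiLp.add_apply, PiLp.smul_apply, smul_eq_mul]
      simp
      have : u = 1 - v := by linarith
      rw [this]
      ring
  refine le_trans ?_ (measure_mono hsub)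
  rw [hausdorffMeasure_segment, edist_dist, ENNReal.one_le_ofReal, dist_comm, EuclideanSpace.dist_eq]
  apply Real.le_sqrt_of_sq_le
  simp only [Fin.sum_univ_two, hp, hq, Real.dist_eq, sq_abs]
  simp
  positivity

/-- slope and intercept with respect to the coordinate `i`; the other coordinate is `1 - i` -/
noncomputable def slope (i : Fin 2) : LineSpace → ℝ :=
  Quotient.lift (fun d : NormalForm => -((d.1 : Plane) (1 - i) / (d.1 : Plane) i)) (by
    rintro a b (h | h)
    · rw [h]
    · rw [h]; simp)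

noncomputable def icpt (i : Fin 2) : LineSpace → ℝ :=
  Quotient.lift (fun d : NormalForm => d.2 / (d.1 : Plane) i) (by
    rintro a b (h | h)
    · rw [h]
    · rw [h]; simp)

/-- lines whose normal has nonzero `i`-th coordinate -/
def chart (i : Fin 2) : Set LineSpace :=
  {l | Quotient.lift (fun d : NormalForm => (d.1 : Plane) i ≠ 0) (by
    rintro a b (h | h)
    · rw [h]
    · rw [h]; simp) l}

theorem preimage_chart (i : Fin 2) :
    (Quotient.mk lineSetoid) ⁻¹' (chart i) = {d : NormalForm | (d.1 : Plane) i ≠ 0} := rfl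

theorem continuous_coord (i : Fin 2) : Continuous (fun d : NormalForm => (d.1 : Plane) i) := by
  have h1 : Continuous (fun d : NormalForm => (d.1 : Plane)) := continuous_subtype_val.comp continuous_fst
  exact (EuclideanSpace.proj i : Plane →L[ℝ] ℝ).continuous.comp h1

theorem isQuotientMap_mk : IsQuotientMap (Quotient.mk lineSetoid : NormalForm → LineSpace) :=
  isQuotientMap_quot_mk

theorem isOpen_chart (i : Fin 2) : IsOpen (chart i) := by
  rw [← isQuotientMap_mk.isOpen_preimage]
  rw [preimage_chart]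
  exact isOpen_ne_fun (continuous_coord i) continuous_const

theorem continuousOn_slope (i : Fin 2) : ContinuousOn (slope i) (chart i) := by
  rw [isQuotientMap_mk.continuousOn_isOpen_iff (isOpen_chart i), preimage_chart]
  have : (slope i) ∘ (Quotient.mk lineSetoid) = fun d : NormalForm => -((d.1 : Plane) (1 - i) / (d.1 : Plane) i) := rfl
  rw [this]
  apply ContinuousOn.neg
  apply ContinuousOn.div
  · exact (continuous_coord _).continuousOn
  · exact (continuous_coord _).continuousOn
  · intro d hd; exact hd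

theorem continuousOn_icpt (i : Fin 2) : ContinuousOn (icpt i) (chart i) := by
  rw [isQuotientMap_mk.continuousOn_isOpen_iff (isOpen_chart i), preimage_chart]
  have : (icpt i) ∘ (Quotient.mk lineSetoid) = fun d : NormalForm => d.2 / (d.1 : Plane) i := rfl
  rw [this]
  apply ContinuousOn.div
  · exact continuous_snd.continuousOn
  · exact (continuous_coord _).continuousOn
  · intro d hd; exact hd

theorem mem_pointSet (i : Fin 2) (l : LineSpace) (hl : l ∈ chart i) (x : Plane) :
    x ∈ pointSet l ↔ x i = slope i l * x (1 - i) + icpt i l := by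
  induction l using Quotient.inductionOn with
  | _ d =>
    have hd : (d.1 : Plane) i ≠ 0 := hl
    show inner ℝ x (d.1 : Plane) = d.2 ↔ x i = -((d.1 : Plane) (1 - i) / (d.1 : Plane) i) * x (1 - i) + d.2 / (d.1 : Plane) i
    rw [inner_plane]
    have h : x 0 * (d.1 : Plane) 0 + x 1 * (d.1 : Plane) 1 = x i * (d.1 : Plane) i + x (1 - i) * (d.1 : Plane) (1 - i) := by
      fin_cases i
      · simp
      · simp [add_comm]
    rw [h]
    constructor
    · intro h1
      field_simp
      linarith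
    · intro h1
      rw [h1]
      field_simp
      ring

theorem exists_chart (l : LineSpace) : ∃ i : Fin 2, l ∈ chart i := by
  induction l using Quotient.inductionOn with
  | _ d =>
    by_contra hcon
    push Not at hcon
    have h0 : (d.1 : Plane) 0 = 0 := not_not.mp (hcon 0)
    have h1 : (d.1 : Plane) 1 = 0 := not_not.mp (hcon 1)
    have h2 : (d.1 : Plane) = 0 := by
      ext i
      fin_cases i
      · exact h0
      · exact h1
    have h3 := d.1.2
    rw [mem_sphere_zero_iff_norm, h2, norm_zero] at h3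
    norm_num at h3

theorem one_le_of_segment (i : Fin 2) (l : LineSpace) (hl : l ∈ chart i)
    (h : ∃ x₀ : ℝ, ∀ x ∈ Icc x₀ (x₀ + 1), (x, slope i l * x + icpt i l) ∈ SS) :
    1 ≤ μH[1] (pointSet l ∩ EE) := by
  obtain ⟨x₀, hx₀⟩ := h
  fin_cases i
  · apply one_le_hausdorff_snd _ (slope 0 l) (icpt 0 l) x₀
    intro z hz hz'
    refine ⟨(mem_pointSet 0 l hl z).mpr hz', ?_⟩
    right
    show (z 1, z 0) ∈ SS
    rw [hz']
    exact hx₀ _ hz
  · apply one_le_hausdorff_fst _ (slope 1 l) (icpt 1 l) x₀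
    intro z hz hz'
    refine ⟨(mem_pointSet 1 l hl z).mpr hz', ?_⟩
    left
    show (z 0, z 1) ∈ SS
    rw [hz']
    exact hx₀ _ hz

/-- Negative answer to Croft's question Q2: there is a measurable plane set `E` with `0 < |E| < ∞` such
that there are no `δ > 0` and lines `L t`, `0 < t < δ`, depending continuously on `t`, with
`H^1 (L t ∩ E) = t` for all `t` in `(0, δ)`. -/
theorem result : ∃ E : Set Plane, MeasurableSet E ∧ 0 < volume E ∧ volume E < ∞ ∧
    ¬ ∃ δ : ℝ, 0 < δ ∧ ∃ L : ℝ → LineSpace, ContinuousOn L (Ioo 0 δ) ∧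
      ∀ t ∈ Ioo 0 δ, μH[1] (pointSet (L t) ∩ E) = ENNReal.ofReal t := by
  refine ⟨EE, measurableSet_EE, volume_EE_pos, volume_EE_lt_top, ?_⟩
  rintro ⟨δ, hδ, L, hL, hval⟩
  set δ' := min δ 1 with hδ'
  have hδ'0 : 0 < δ' := lt_min hδ one_pos
  have hLo : ContinuousOn L (Ioo 0 δ') := hL.mono (Ioo_subset_Ioo_right (min_le_left _ _))
  obtain ⟨i, hi⟩ := exists_chart (L (δ' / 2))
  have hmem : δ' / 2 ∈ Ioo 0 δ' := ⟨by positivity, by linarith⟩
  have hopen : IsOpen (Ioo 0 δ' ∩ L ⁻¹' (chart i)) := hLo.isOpen_inter_preimage isOpen_Ioo (isOpen_chart i)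
  obtain ⟨η, hη, hball⟩ := Metric.isOpen_iff.mp hopen (δ' / 2) ⟨hmem, hi⟩
  rw [Real.ball_eq_Ioo] at hball
  set α := δ' / 2 - η
  set β := δ' / 2 + η
  have hLs : ContinuousOn L (Ioo α β) := hLo.mono (fun t ht => (hball ht).1)
  have hmaps : MapsTo L (Ioo α β) (chart i) := fun t ht => (hball ht).2
  have hc := core (fun t => slope i (L t)) (fun t => icpt i (L t)) α β
    ((continuousOn_slope i).comp hLs hmaps) ((continuousOn_icpt i).comp hLs hmaps) (by
      intro t ht hseg
      have h1 := one_le_of_segment i (L t) (hmaps ht) hseg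
      have ht' := (hball ht).1
      rw [hval t ⟨ht'.1, ht'.2.trans_le (min_le_left _ _)⟩, ENNReal.one_le_ofReal] at h1
      have : t < 1 := ht'.2.trans_le (min_le_right _ _)
      linarith)
  have ht1 : δ' / 2 ∈ Ioo α β := ⟨by simp only [α]; linarith, by simp only [β]; linarith⟩
  have ht2 : δ' / 2 + η / 2 ∈ Ioo α β := ⟨by simp only [α]; linarith, by simp only [β]; linarith⟩
  have h2 := hc _ ht1 _ ht2
  have h3 : pointSet (L (δ' / 2)) = pointSet (L (δ' / 2 + η / 2)) := by
    ext x
    rw [mem_pointSet i _ (hmaps ht1), mem_pointSet i _ (hmaps ht2), h2.1, h2.2]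
  have hm1 := (hball ht1).1
  have hm2 := (hball ht2).1
  have h4 := hval _ ⟨hm1.1, hm1.2.trans_le (min_le_left _ _)⟩
  have h5 := hval _ ⟨hm2.1, hm2.2.trans_le (min_le_left _ _)⟩
  rw [h3, h5] at h4
  rw [ENNReal.ofReal_eq_ofReal_iff hm2.1.le hm1.1.le] at h4
  linarith

end Pool.Agent.Results.MP_ec7c5f_an.ContinuousLines
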